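import Pool.Agent.Work.MP_50269c_nt.Main2

/-!
# Integral points of bounded degree in finitely many linear equivalence classes

`C` is a nonsingular affine curve over the number field `L` with coordinate ring `A` (a Dedekind
domain) and coordinate functions `x i`, geometrically irreducible; `K`, `Kb` are the function fields
of `C` over `L` and over the algebraic closure `Lb` of `L`. Points at infinity of `C` (over `Lb`) are
the valuation subrings of `Kb` containing `Lb` and not all `x i`.
-/

set_option autoImplicit false

noncomputable section

namespace Pool.Agent.Results.MP_50269c_nt.OneBoundaryPoint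

open NumberField IsDedekindDomain Pool.Agent.Work.MP_50269c_nt

/-- If infinitely many of the points of `C` which are integral over the `S`-integers and of degree at
most `d` lie in finitely many linear equivalence classes, then for every point at infinity `P` there
is a map of degree at most `d`, defined over `L(P)`, which sends all the points at infinity to
`0` or `∞`. -/
theorem result (L : Type) [Field L] [NumberField L] (Lb : Type) [Field Lb] [Algebra L Lb]
    [IsAlgClosure L Lb] (A : Type) [CommRing A] [IsDedekindDomain A] [Algebra L A] (n : ℕ)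
    (x : Fin n → A) (hx : Algebra.adjoin L (Set.range x) = ⊤) (hA : ¬ IsField A)
    (K : Type) [Field K] [Algebra A K] [IsFractionRing A K] [Algebra L K] [IsScalarTower L A K]
    (hgeo : ∀ z : K, IsAlgebraic L z → z ∈ Set.range (algebraMap L K))
    (Kb : Type) [Field Kb] [Algebra K Kb] [Algebra Lb Kb] [Algebra L Kb] [IsScalarTower L K Kb]
    [IsScalarTower L Lb Kb]
    (hKb : IntermediateField.adjoin Lb (Set.range (algebraMap K Kb)) = ⊤)
    (S : Finset (HeightOneSpectrum (𝓞 L))) (d : ℕ) (Q : Finset (Ideal A))
    (hinf : {P ∈ IntPts L Lb S x d | ∃ q ∈ Q, LinEq L x K (RingHom.ker P) q}.Infinite) :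
    (∃ O : ValuationSubring Kb, AtInf Lb (fun i => algebraMap K Kb (algebraMap A K (x i))) O) ∧
    ∀ O1 : ValuationSubring Kb,
      AtInf Lb (fun i => algebraMap K Kb (algebraMap A K (x i))) O1 → ∃ φ : Kb,
      φ ∈ Subfield.closure (Set.range (algebraMap K Kb) ∪
        algebraMap Lb Kb '' (ptField L Lb K O1 : Set Lb)) ∧
      φ ∉ Set.range (algebraMap Lb Kb) ∧
      FiniteDimensional (IntermediateField.adjoin Lb {φ}) Kb ∧
      Module.finrank (IntermediateField.adjoin Lb {φ}) Kb ≤ d ∧
      ∀ O : ValuationSubring Kb, AtInf Lb (fun i => algebraMap K Kb (algebraMap A K (x i))) O →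
        φ ∉ O ∨ φ⁻¹ ∉ O :=
  main2 hgeo hKb S hx hA d Q hinf

end Pool.Agent.Results.MP_50269c_nt.OneBoundaryPoint
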